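import Mathlib

/-!
Project TR: integral points of elliptic curves which are divisible by three over a number field;
more generally integral values `φ(t) / ψ(t) ^ 2`, `t` in a number field.
Exact statements of the pieces.
-/

set_option autoImplicit false

namespace Pool.Agent.Y674.TR

open Polynomial NumberField

/-- `φ` monic of degree `2 e + 1`, `ψ` of degree `e`, coefficients at most `H` -/
structure Dat (e : ℕ) (φ ψ : ℤ[X]) (H : ℕ) : Prop where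
  one : 1 ≤ H
  mon : φ.Monic
  deg : φ.natDegree = 2 * e + 1
  degψ : ψ.natDegree = e
  cφ : ∀ i, |φ.coeff i| ≤ (H : ℤ)
  cψ : ∀ i, |ψ.coeff i| ≤ (H : ℤ)
  sep : (ψ.map (Int.castRingHom ℚ)).Separable
  cop : IsCoprime (φ.map (Int.castRingHom ℚ)) (ψ.map (Int.castRingHom ℚ))

/-- the polynomial `φ - x ψ ^ 2` -/
noncomputable def F (φ ψ : ℤ[X]) (x : ℤ) : ℤ[X] := φ - C x * ψ ^ 2

/-- the value of an integral polynomial at a complex number -/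
noncomputable def ev (f : ℤ[X]) (s : ℂ) : ℂ := (f.map (Int.castRingHom ℂ)).eval s

/-- the complex roots -/
noncomputable def Rt (f : ℤ[X]) : Finset ℂ := by
  classical exact (f.map (Int.castRingHom ℂ)).roots.toFinset

/-! ### The roots of `φ - x ψ ^ 2` -/

/-- the size of a complex root; also the bounds for the values outside the disc of radius `4 H` -/
def SZ : Prop := ∀ (e : ℕ), 1 ≤ e → ∀ (φ ψ : ℤ[X]) (H : ℕ), Dat e φ ψ H →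
  (∀ s : ℂ, 4 * (H : ℝ) ≤ ‖s‖ → ‖s‖ ^ e / 2 ≤ ‖ev ψ s‖ ∧ ‖ev ψ s‖ ≤ 2 * H * ‖s‖ ^ e ∧
    ‖s‖ ^ (2 * e + 1) / 2 ≤ ‖ev φ s‖ ∧ ‖ev φ s‖ ≤ 3 / 2 * ‖s‖ ^ (2 * e + 1)) ∧
  ∀ (x : ℤ) (s : ℂ), ev (F φ ψ x) s = 0 →
  (‖s‖ < 4 * H ∧
    ‖ev ψ s‖ ^ 2 * |(x : ℝ)| ≤ (2 * e + 2) * H * (4 * H : ℝ) ^ (2 * e + 1)) ∨
  (4 * (H : ℝ) ≤ ‖s‖ ∧ |(x : ℝ)| ≤ 6 * ‖s‖ ∧ ‖s‖ ≤ 8 * (H : ℝ) ^ 2 * |(x : ℝ)|)

/-- exactly one large root -/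
def ONE : Prop := ∀ e : ℕ, 1 ≤ e → ∃ k C₀ : ℕ, ∀ (φ ψ : ℤ[X]) (H : ℕ), Dat e φ ψ H →
  ∀ x : ℤ, (C₀ : ℝ) * (H : ℝ) ^ k ≤ |(x : ℝ)| → ∀ (ι : Type) [Fintype ι] (s : ι → ℂ),
  (F φ ψ x).map (Int.castRingHom ℂ) = ∏ i, (X - C (s i)) →
  ∃ i₀, 4 * (H : ℝ) ≤ ‖s i₀‖ ∧ ∀ i, i ≠ i₀ → ‖s i‖ < 4 * H

/-- every complex number is near a root of `ψ` if `ψ` is small there (uses the Liouville
inequality `Pool.Agent.Y927.HY.liou`) -/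
def NEAR : Prop := ∀ e : ℕ, 1 ≤ e → ∃ k C₀ : ℕ, ∀ (φ ψ : ℤ[X]) (H : ℕ), Dat e φ ψ H →
  (Rt ψ).card = e ∧ ∀ s : ℂ, ∃ τ ∈ Rt ψ, ‖s - τ‖ ≤ C₀ * (H : ℝ) ^ k * ‖ev ψ s‖

/-- irreducibility -/
def IRR : Prop := ∀ e : ℕ, 1 ≤ e → ∃ k C₀ : ℕ, ∀ (φ ψ : ℤ[X]) (H : ℕ), Dat e φ ψ H →
  ∀ x : ℤ, (C₀ : ℝ) * (H : ℝ) ^ k ≤ |(x : ℝ)| →
  Irreducible ((F φ ψ x).map (Int.castRingHom ℚ))

/-- the field generated by a root -/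
def PROD : Prop := ∀ (e : ℕ) (φ ψ : ℤ[X]) (H : ℕ), 1 ≤ e → Dat e φ ψ H → ∀ x : ℤ,
  Irreducible ((F φ ψ x).map (Int.castRingHom ℚ)) →
  ∀ (K : Type) [Field K] [NumberField K] (t : K), aeval t φ = (x : K) * aeval t ψ ^ 2 →
  ∃ (K' : IntermediateField ℚ K) (t' : 𝓞 K'), Module.finrank ℚ K' = 2 * e + 1 ∧
    (F φ ψ x).map (Int.castRingHom ℂ) = ∏ σ : K' →+* ℂ, (X - C (σ (t' : K')))

/-! ### The subspace theorem -/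

/-- pairs of close roots: more points than places -/
def SEL : Prop := ∀ (ι : Type) [Fintype ι] [DecidableEq ι] (T : Finset ℂ),
  Fintype.card ι = 2 * T.card + 1 → ∀ (i₀ : ι) (s : ι → ℂ) (δ : ℝ), 0 ≤ δ →
  (∀ i, i ≠ i₀ → ∃ τ ∈ T, ‖s i - τ‖ ≤ δ) →
  ∃ rep : ι → ι, (∀ i, rep (rep i) = rep i) ∧ rep i₀ = i₀ ∧ (∀ i, ‖s i - s (rep i)‖ ≤ 2 * δ) ∧
    T.card ≤ (Finset.univ.filter fun i => rep i ≠ i).card

/-- linear forms on the ring of integers are traces -/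
def TRF : Prop := ∀ (K : Type) [Field K] [NumberField K] (n : ℕ)
  (b : Module.Basis (Fin n) ℤ (𝓞 K)) (y : Fin n → ℤ), y ≠ 0 → ∃ c : K, c ≠ 0 ∧
  ∀ z : Fin n → ℤ, ((∑ j, y j * z j : ℤ) : ℚ) =
    Algebra.trace ℚ K (c * ((∑ j, z j • b j : 𝓞 K) : K))

/-- the field of degree `2 e + 1` -/
def SUB : Prop := ∀ e : ℕ, 3 ≤ e → ∃ k : ℕ, ∀ (K : Type) [Field K] [NumberField K],
  Module.finrank ℚ K = 2 * e + 1 → ∃ C₀ : ℕ, ∀ (φ ψ : ℤ[X]) (H : ℕ), Dat e φ ψ H →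
  ∀ (x : ℤ) (t : 𝓞 K),
  (F φ ψ x).map (Int.castRingHom ℂ) = ∏ σ : K →+* ℂ, (X - C (σ (t : K))) →
  |(x : ℝ)| ≤ C₀ * (H : ℝ) ^ k

/-! ### The general theorem -/

/-- fields of small degree -/
def SML : Prop := ∀ e : ℕ, 1 ≤ e → ∃ k C₀ : ℕ, ∀ (K : Type) [Field K] [NumberField K],
  Module.finrank ℚ K < 2 * e + 1 → ∀ (φ ψ : ℤ[X]) (H : ℕ), Dat e φ ψ H →
  ∀ (x : ℤ) (t : K), aeval t φ = (x : K) * aeval t ψ ^ 2 → |(x : ℝ)| ≤ C₀ * (H : ℝ) ^ k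

/-- a fixed field -/
def GEN : Prop := ∀ e : ℕ, 3 ≤ e → ∃ k : ℕ, ∀ (K : Type) [Field K] [NumberField K],
  ∃ C₀ : ℕ, ∀ (φ ψ : ℤ[X]) (H : ℕ), Dat e φ ψ H →
  ∀ (x : ℤ) (t : K), aeval t φ = (x : K) * aeval t ψ ^ 2 → |(x : ℝ)| ≤ C₀ * (H : ℝ) ^ k

/-! ### Multiplication by three -/

/-- `f` -/
noncomputable def f3 (A B : ℤ) : ℤ[X] := X ^ 3 + C A * X + C B

/-- the third division polynomial -/
noncomputable def ψ3 (A B : ℤ) : ℤ[X] :=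
  C 3 * X ^ 4 + C (6 * A) * X ^ 2 + C (12 * B) * X - C (A ^ 2)

/-- the numerator of multiplication by three -/
noncomputable def φ3 (A B : ℤ) : ℤ[X] :=
  C 64 * f3 A B ^ 3 - C 8 * f3 A B * (C 3 * X ^ 2 + C A) * ψ3 A B + X * ψ3 A B ^ 2

/-- the data -/
def DAT3 : Prop := ∀ A B : ℤ, 4 * A ^ 3 + 27 * B ^ 2 ≠ 0 →
  Dat 4 (φ3 A B) (ψ3 A B) (1000 * (max |A| |B|).natAbs ^ 4)

/-- the curve `y ^ 2 = x ^ 3 + A x + B` over `K` -/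
def E (K : Type) [Field K] (A B : ℤ) : WeierstrassCurve.Affine K := ⟨0, 0, 0, (A : K), (B : K)⟩

/-- the group law -/
def GRP : Prop := ∀ (K : Type) [Field K] [NumberField K] [DecidableEq K] (A B : ℤ) (x y : K)
  (h : (E K A B).Nonsingular x y) (Q : (E K A B).Point),
  3 • Q = WeierstrassCurve.Affine.Point.some x y h →
  ∃ t : K, aeval t (φ3 A B) = x * aeval t (ψ3 A B) ^ 2

end Pool.Agent.Y674.TR
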