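import Mathlib
import Pool.Agent.Y674.TR.Stm

/-!
Project TR, part 2: multiplication by an arbitrary `m`.
Numerator and denominator of the `x`-coordinate of `n Q`, by doubling and by
`x(P₁ + P₂) + x(P₁ - P₂)`. Exact statements of the pieces.
-/

set_option autoImplicit false

namespace Pool.Agent.Y674.TR

open Polynomial NumberField

/-- doubling -/
noncomputable def dblP (A B : ℤ) (p : ℤ[X] × ℤ[X]) : ℤ[X] × ℤ[X] :=
  (p.1 ^ 4 - C (2 * A) * p.1 ^ 2 * p.2 ^ 2 - C (8 * B) * p.1 * p.2 ^ 3 + C (A ^ 2) * p.2 ^ 4,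
    C 4 * p.2 * (p.1 ^ 3 + C A * p.1 * p.2 ^ 2 + C B * p.2 ^ 3))

/-- the sum of two multiples with difference the point itself -/
noncomputable def addP (A B : ℤ) (p q : ℤ[X] × ℤ[X]) : ℤ[X] × ℤ[X] :=
  (C 2 * ((p.1 * q.2 + q.1 * p.2) * (p.1 * q.1 + C A * (p.2 * q.2)) +
      C (2 * B) * (p.2 ^ 2 * q.2 ^ 2)) - X * (p.1 * q.2 - q.1 * p.2) ^ 2,
    (p.1 * q.2 - q.1 * p.2) ^ 2)

/-- numerator and denominator of `x(n Q)` -/
noncomputable def ND (A B : ℤ) (n : ℕ) : ℤ[X] × ℤ[X] :=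
  if _h0 : n = 0 then (1, 0) else if _h1 : n = 1 then (X, 1) else
    if n % 2 = 0 then dblP A B (ND A B (n / 2))
    else addP A B (ND A B (n / 2)) (ND A B (n / 2 + 1))
termination_by n
decreasing_by all_goals omega

theorem ND_one (A B : ℤ) : ND A B 1 = (X, 1) := by
  rw [ND]
  simp

theorem ND_even (A B : ℤ) (k : ℕ) (hk : 1 ≤ k) : ND A B (2 * k) = dblP A B (ND A B k) := by
  rw [ND, dif_neg (by omega), dif_neg (by omega), if_pos (by omega)]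
  have : 2 * k / 2 = k := by omega
  rw [this]

theorem ND_odd (A B : ℤ) (k : ℕ) (hk : 1 ≤ k) :
    ND A B (2 * k + 1) = addP A B (ND A B k) (ND A B (k + 1)) := by
  rw [ND, dif_neg (by omega), dif_neg (by omega), if_neg (by omega)]
  have : (2 * k + 1) / 2 = k := by omega
  rw [this]

/-- the square root of the denominator for odd multiples -/
noncomputable def Wp (A B : ℤ) (k : ℕ) : ℤ[X] :=
  (ND A B k).1 * (ND A B (k + 1)).2 - (ND A B (k + 1)).1 * (ND A B k).2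

theorem ND_odd_snd (A B : ℤ) (k : ℕ) (hk : 1 ≤ k) : (ND A B (2 * k + 1)).2 = Wp A B k ^ 2 := by
  rw [ND_odd A B k hk]
  rfl

/-- the pair `(a, b)` represents the `x`-coordinate of `P` -/
def Rep {K : Type} [Field K] {A B : ℤ} (P : (E K A B).Point) (a b : K) : Prop :=
  (P = WeierstrassCurve.Affine.Point.zero ∧ a ≠ 0 ∧ b = 0) ∨
  (b ≠ 0 ∧ ∃ (x y : K) (h : (E K A B).Nonsingular x y),
    P = WeierstrassCurve.Affine.Point.some x y h ∧ a = x * b)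

/-! ### The group law -/

/-- doubling -/
def DBL : Prop := ∀ (K : Type) [Field K] [CharZero K] [DecidableEq K] (A B : ℤ),
  4 * A ^ 3 + 27 * B ^ 2 ≠ 0 → ∀ (P : (E K A B).Point) (a b : K), Rep P a b →
  Rep (2 • P) (a ^ 4 - 2 * A * a ^ 2 * b ^ 2 - 8 * B * a * b ^ 3 + A ^ 2 * b ^ 4)
    (4 * b * (a ^ 3 + A * a * b ^ 2 + B * b ^ 3))

/-- differential addition -/
def ADD : Prop := ∀ (K : Type) [Field K] [CharZero K] [DecidableEq K] (A B : ℤ),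
  4 * A ^ 3 + 27 * B ^ 2 ≠ 0 → ∀ (t s : K) (h : (E K A B).Nonsingular t s)
  (P₁ P₂ : (E K A B).Point), P₂ = P₁ + WeierstrassCurve.Affine.Point.some t s h →
  ∀ a₁ b₁ a₂ b₂ : K, Rep P₁ a₁ b₁ → Rep P₂ a₂ b₂ →
  Rep (P₁ + P₂) (2 * ((a₁ * b₂ + a₂ * b₁) * (a₁ * a₂ + A * (b₁ * b₂)) +
      2 * B * (b₁ ^ 2 * b₂ ^ 2)) - t * (a₁ * b₂ - a₂ * b₁) ^ 2)
    ((a₁ * b₂ - a₂ * b₁) ^ 2)

/-- all multiples -/
def MULP : Prop := ∀ (K : Type) [Field K] [CharZero K] [DecidableEq K] (A B : ℤ),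
  4 * A ^ 3 + 27 * B ^ 2 ≠ 0 → ∀ (t s : K) (h : (E K A B).Nonsingular t s) (n : ℕ), 1 ≤ n →
  Rep (n • (WeierstrassCurve.Affine.Point.some t s h : (E K A B).Point))
    (aeval t (ND A B n).1) (aeval t (ND A B n).2)

/-! ### The polynomials -/

/-- degrees and leading coefficients -/
def DEG : Prop := ∀ (A B : ℤ) (n : ℕ), 1 ≤ n →
  ((ND A B n).1.Monic ∧ (ND A B n).1.natDegree = n ^ 2 ∧
    (ND A B n).2.natDegree = n ^ 2 - 1 ∧ (ND A B n).2.leadingCoeff = (n : ℤ) ^ 2) ∧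
  (Wp A B n).natDegree = 2 * n ^ 2 + 2 * n

/-- the size of the coefficients -/
def PB : Prop := ∀ n : ℕ, ∃ c k : ℕ, 1 ≤ c ∧ ∀ A B : ℤ, 1 ≤ max |A| |B| → ∀ i,
  |(ND A B n).1.coeff i| ≤ (c : ℤ) * (max |A| |B|) ^ k ∧
  |(ND A B n).2.coeff i| ≤ (c : ℤ) * (max |A| |B|) ^ k ∧
  |(Wp A B n).coeff i| ≤ (c : ℤ) * (max |A| |B|) ^ k

/-- no common roots -/
def COP : Prop := ∀ (A B : ℤ), 4 * A ^ 3 + 27 * B ^ 2 ≠ 0 → ∀ n : ℕ, 1 ≤ n →
  IsCoprime ((ND A B n).1.map (Int.castRingHom ℚ)) ((ND A B n).2.map (Int.castRingHom ℚ))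

/-- simple roots -/
def SEP : Prop := ∀ (A B : ℤ), 4 * A ^ 3 + 27 * B ^ 2 ≠ 0 → ∀ k : ℕ, 1 ≤ k →
  ((Wp A B k).map (Int.castRingHom ℚ)).Separable

/-! ### Irreducibility for arbitrary denominators -/

/-- `φ` monic of degree `n`, `δ` of degree `n - 1`, coefficients at most `H` -/
structure DatD (n : ℕ) (φ δ : ℤ[X]) (H : ℕ) : Prop where
  one : 1 ≤ H
  mon : φ.Monic
  deg : φ.natDegree = n
  degδ : δ.natDegree = n - 1
  ne : δ ≠ 0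
  cφ : ∀ i, |φ.coeff i| ≤ (H : ℤ)
  cδ : ∀ i, |δ.coeff i| ≤ (H : ℤ)
  cop : IsCoprime (φ.map (Int.castRingHom ℚ)) (δ.map (Int.castRingHom ℚ))

/-- irreducibility of `φ - x δ` for large `x` -/
def IRRD : Prop := ∀ n : ℕ, 2 ≤ n → ∃ k C₀ : ℕ, ∀ (φ δ : ℤ[X]) (H : ℕ), DatD n φ δ H →
  ∀ x : ℤ, (C₀ : ℝ) * (H : ℝ) ^ k ≤ |(x : ℝ)| →
  Irreducible ((φ - C x * δ).map (Int.castRingHom ℚ))

/-! ### Halves -/

/-- doubling with the slope -/
def HLF : Prop := ∀ (K : Type) [Field K] [CharZero K] [DecidableEq K] (A B : ℤ) (x y : K)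
  (h : (E K A B).Nonsingular x y) (Q : (E K A B).Point),
  2 • Q = WeierstrassCurve.Affine.Point.some x y h →
  ∃ X Y l : K, Y ^ 2 = X ^ 3 + A * X + B ∧ 2 * Y * l = 3 * X ^ 2 + A ∧
    l ^ 2 - 2 * X = x ∧ l * (X - x) - Y = y

end Pool.Agent.Y674.TR
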