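import Mathlib
import Pool.Agent.Y674.TR.Stm
import Pool.Agent.Y674.HY.Sch1
import Pool.Agent.Y674.HL.Sub
import Pool.Agent.Y674.HL.Emb

/-!
The matrix of the linear forms.
-/

set_option autoImplicit false

open Finset Filter Topology

namespace Pool.Agent.Y674.TR

open NumberField

section M

variable {F L : Type} [Field F] [NumberField F] [Field L] [NumberField L]

/-- conjugates, or differences of conjugates -/
noncomputable def Gm {m : ℕ} (rep : Fin m → Fin m) (s : Fin m → (F →+* L)) (b : Fin m → 𝓞 F) :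
    Matrix (Fin m) (Fin m) (𝓞 L) :=
  Matrix.of fun k j => if rep k = k then RingOfIntegers.mapRingHom (s k) (b j) else
    RingOfIntegers.mapRingHom (s k) (b j) - RingOfIntegers.mapRingHom (s (rep k)) (b j)

theorem Gm_coe {m : ℕ} (rep : Fin m → Fin m) (s : Fin m → (F →+* L)) (b : Fin m → 𝓞 F)
    (k j : Fin m) : ((Gm rep s b k j : 𝓞 L) : L) =
      s k (b j : F) - if rep k ≠ k then s (rep k) (b j : F) else 0 := by
  unfold Gm
  rw [Matrix.of_apply]
  by_cases h : rep k = k
  · simp only [h, if_true, ne_eq, not_true_eq_false, if_false, sub_zero]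
    rfl
  · simp only [h, if_false, ne_eq, not_false_eq_true, if_true]
    push_cast
    rfl

theorem Gm_det {m : ℕ} (rep : Fin m → Fin m) (hrep : ∀ i, rep (rep i) = rep i)
    (s : Fin m → (F →+* L)) (b : Fin m → 𝓞 F)
    (hs : LinearIndependent L (fun (i : Fin m) (j : Fin m) => s i (b j : F))) :
    (Gm rep s b).det ≠ 0 := by
  classical
  intro hdet
  obtain ⟨c, hc, hc0⟩ := Matrix.exists_vecMul_eq_zero_iff.2 hdet
  apply hc
  rw [Fintype.linearIndependent_iff] at hs
  set d : Fin m → L := fun i => (c i : L) -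
    ∑ k, if rep k ≠ k ∧ rep k = i then (c k : L) else 0 with hd
  have h1 : ∑ k, d k • (fun j : Fin m => s k (b j : F)) = 0 := by
    funext j
    have h2 := congrArg (fun a : 𝓞 L => (a : L)) (congrFun hc0 j)
    simp only [Matrix.vecMul, dotProduct, Pi.zero_apply] at h2
    have h2' : ∑ k, (c k : L) * ((Gm rep s b k j : 𝓞 L) : L) = 0 := by
      simpa using h2
    simp only [Gm_coe] at h2'
    rw [Finset.sum_apply]
    simp only [Pi.smul_apply, smul_eq_mul, Pi.zero_apply]
    rw [← h2']
    simp only [hd, sub_mul, mul_sub, Finset.sum_sub_distrib]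
    congr 1
    simp only [Finset.sum_mul]
    rw [Finset.sum_comm]
    refine Finset.sum_congr rfl fun k _ => ?_
    by_cases h : rep k = k
    · simp [h]
    · simp only [ne_eq, h, not_false_eq_true, true_and, if_true, ite_mul, zero_mul]
      rw [Finset.sum_ite_eq Finset.univ (rep k) (fun i => (c k : L) * s i (b j : F))]
      simp
  have h2 := hs d h1
  have h3 : ∀ i, rep i ≠ i → c i = 0 := by
    intro i hi
    have h4 := h2 i
    simp only [hd] at h4
    rw [Finset.sum_eq_zero, sub_zero] at h4
    · exact_mod_cast h4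
    · intro k _
      rw [if_neg]
      rintro ⟨-, hk⟩
      exact hi (by rw [← hk, hrep])
  funext i
  have h4 := h2 i
  simp only [hd] at h4
  rw [Finset.sum_eq_zero, sub_zero] at h4
  · exact_mod_cast h4
  · intro k _
    split_ifs with h
    · rw [h3 k h.1]
      simp
    · rfl

theorem Gm_sum {m : ℕ} (rep : Fin m → Fin m) (s : Fin m → (F →+* L))
    (b : Fin m → 𝓞 F) (k : Fin m) (z : Fin m → ℤ) (w : 𝓞 F)
    (hw : w = ∑ j, z j • b j) :
    ∑ j, ((Gm rep s b k j : 𝓞 L) : L) * (z j : L) =
      s k (w : F) - if rep k ≠ k then s (rep k) (w : F) else 0 := by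
  have hs : ∀ σ : F →+* L, σ (w : F) = ∑ j, σ (b j : F) * (z j : L) := by
    intro σ
    rw [hw]
    push_cast
    rw [map_sum]
    refine Finset.sum_congr rfl fun j _ => ?_
    rw [zsmul_eq_mul, map_mul, map_intCast, mul_comm]
  simp only [Gm_coe]
  by_cases h : rep k = k
  · simp only [h, ne_eq, not_true_eq_false, if_false, sub_zero]
    rw [hs]
  · simp only [h, ne_eq, not_false_eq_true, if_true]
    rw [hs, hs, ← Finset.sum_sub_distrib]
    refine Finset.sum_congr rfl fun j _ => ?_
    ring

end M

end Pool.Agent.Y674.TR
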