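import Mathlib
import Pool.Agent.Y674.TR.Mat

/-!
The subspace theorem for the roots of `φ - x ψ ^ 2`.
-/

set_option autoImplicit false

open Finset Filter Topology

namespace Pool.Agent.Y674.TR

open NumberField Polynomial

/-- the geometry of the roots -/
theorem geo (h1 : SZ) (h2 : ONE) (h3 : NEAR) (h4 : SEL) (e : ℕ) (he : 1 ≤ e) :
    ∃ (M : ℕ) (D : ℝ) (C₁ k₁ : ℕ), 1 ≤ D ∧ ∀ (φ ψ : ℤ[X]) (H : ℕ), Dat e φ ψ H → ∀ x : ℤ,
      (C₁ : ℝ) * (H : ℝ) ^ k₁ ≤ |(x : ℝ)| → 1 ≤ |(x : ℝ)| → ∀ s : Fin (2 * e + 1) → ℂ,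
      (F φ ψ x).map (Int.castRingHom ℂ) = ∏ i, (X - C (s i)) →
      ∃ (i₀ : Fin (2 * e + 1)) (rep : Fin (2 * e + 1) → Fin (2 * e + 1)),
        (∀ i, rep (rep i) = rep i) ∧ rep i₀ = i₀ ∧
        e ≤ (Finset.univ.filter fun i => rep i ≠ i).card ∧
        |(x : ℝ)| ≤ 6 * ‖s i₀‖ ∧ ‖s i₀‖ ≤ D * (H : ℝ) ^ M * |(x : ℝ)| ∧
        (∀ i, i ≠ i₀ → ‖s i‖ ≤ 4 * H) ∧ (4 * (H : ℝ) ≤ D * (H : ℝ) ^ M) ∧
        ∀ i, ‖s i - s (rep i)‖ ≤ D * (H : ℝ) ^ M * |(x : ℝ)| ^ (-(1 / 2) : ℝ) := by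
  classical
  obtain ⟨k₁, C₁, hone⟩ := h2 e he
  obtain ⟨k₂, C₂, hnear⟩ := h3 e he
  set n := 2 * e + 1 with hn
  set B0 : ℝ := (2 * e + 2) * 4 ^ n with hB0
  have hB01 : 1 ≤ B0 := by
    have h : (1 : ℝ) ≤ 4 ^ n := one_le_pow₀ (by norm_num)
    have : (0 : ℝ) ≤ e := Nat.cast_nonneg e
    rw [hB0]
    nlinarith
  set D : ℝ := 2 * C₂ * B0 + 8 with hD
  have hC2 : (0 : ℝ) ≤ C₂ := Nat.cast_nonneg _
  have hD8 : 8 ≤ D := by
    have : 0 ≤ 2 * (C₂ : ℝ) * B0 := by positivity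
    linarith
  refine ⟨k₂ + n + 2, D, C₁, k₁, by linarith, ?_⟩
  intro φ ψ H hd x hx hx1 s hs
  obtain ⟨i₀, hi₀, hsm⟩ := hone φ ψ H hd x hx (Fin n) s hs
  obtain ⟨hcard, hnr⟩ := hnear φ ψ H hd
  have hsz := (h1 e he φ ψ H hd).2 x
  have hH1 : (1 : ℝ) ≤ H := by exact_mod_cast hd.one
  have hx0 : 0 < |(x : ℝ)| := by linarith
  have hroot : ∀ i, ev (F φ ψ x) (s i) = 0 := by
    intro i
    unfold ev
    rw [hs, eval_prod]
    exact Finset.prod_eq_zero (Finset.mem_univ i) (by simp)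
  -- values of ψ
  have hval : ∀ i, i ≠ i₀ → ‖ev ψ (s i)‖ ≤ B0 * (H : ℝ) ^ (n + 1) * |(x : ℝ)| ^ (-(1 / 2) : ℝ) := by
    intro i hi
    rcases hsz (s i) (hroot i) with ⟨-, h⟩ | ⟨h, -⟩
    · have e1 : ((2 * e + 2 : ℝ)) * H * (4 * H : ℝ) ^ (2 * e + 1) = B0 * (H : ℝ) ^ (n + 1) := by
        rw [hB0, ← hn, mul_pow]
        ring
      rw [e1] at h
      set Bv : ℝ := B0 * (H : ℝ) ^ (n + 1) with hBv
      have hBv1 : 1 ≤ Bv := by
        have : (1 : ℝ) ≤ (H : ℝ) ^ (n + 1) := one_le_pow₀ hH1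
        rw [hBv]
        nlinarith
      have hr0 : 0 < |(x : ℝ)| ^ (-(1 / 2) : ℝ) := Real.rpow_pos_of_pos hx0 _
      have hsq : (|(x : ℝ)| ^ (-(1 / 2) : ℝ)) ^ 2 * |(x : ℝ)| = 1 := by
        rw [← Real.rpow_natCast, ← Real.rpow_mul hx0.le]
        norm_num
        rw [Real.rpow_neg_one]
        exact inv_mul_cancel₀ hx0.ne'
      apply le_of_sq_le_sq _ (by positivity)
      have h6 : ‖ev ψ (s i)‖ ^ 2 * |(x : ℝ)| ≤ (Bv * |(x : ℝ)| ^ (-(1 / 2) : ℝ)) ^ 2 * |(x : ℝ)| := by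
        rw [mul_pow, mul_assoc, hsq, mul_one]
        nlinarith
      exact le_of_mul_le_mul_right h6 hx0
    · exact absurd h (not_le.2 (hsm i hi))
  set δ : ℝ := C₂ * (H : ℝ) ^ k₂ * (B0 * (H : ℝ) ^ (n + 1) * |(x : ℝ)| ^ (-(1 / 2) : ℝ)) with hδ
  have hδ0 : 0 ≤ δ := by positivity
  obtain ⟨rep, hr1, hr2, hr3, hr4⟩ := h4 (Fin n) (Rt ψ) (by rw [hcard, Fintype.card_fin]) i₀ s δ hδ0 (by
    intro i hi
    obtain ⟨τ, hτ, hle⟩ := hnr (s i)
    exact ⟨τ, hτ, hle.trans (mul_le_mul_of_nonneg_left (hval i hi) (by positivity))⟩)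
  rw [hcard] at hr4
  have hHM : ∀ m, m ≤ k₂ + n + 2 → (H : ℝ) ^ m ≤ (H : ℝ) ^ (k₂ + n + 2) := fun m hm =>
    pow_le_pow_right₀ hH1 hm
  have hHM0 : 0 < (H : ℝ) ^ (k₂ + n + 2) := by positivity
  refine ⟨i₀, rep, hr1, hr2, hr4, ?_, ?_, fun i hi => (hsm i hi).le, ?_, ?_⟩
  · rcases hsz (s i₀) (hroot i₀) with ⟨h, -⟩ | ⟨-, h, -⟩
    · exact absurd hi₀ (not_le.2 h)
    · exact h
  · rcases hsz (s i₀) (hroot i₀) with ⟨h, -⟩ | ⟨-, -, h⟩
    · exact absurd hi₀ (not_le.2 h)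
    · refine h.trans (mul_le_mul_of_nonneg_right ?_ hx0.le)
      exact mul_le_mul hD8 (hHM 2 (by omega)) (by positivity) (by linarith)
  · have h5 := hHM 1 (by omega)
    rw [pow_one] at h5
    have h6 : D * (H : ℝ) ≤ D * (H : ℝ) ^ (k₂ + n + 2) :=
      mul_le_mul_of_nonneg_left h5 (by linarith)
    nlinarith
  · intro i
    refine (hr3 i).trans ?_
    have h5 : 2 * δ = (2 * C₂ * B0) * (H : ℝ) ^ (k₂ + (n + 1)) * |(x : ℝ)| ^ (-(1 / 2) : ℝ) := by
      rw [hδ, pow_add]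
      ring
    rw [h5]
    have hr0 : 0 < |(x : ℝ)| ^ (-(1 / 2) : ℝ) := Real.rpow_pos_of_pos hx0 _
    refine mul_le_mul_of_nonneg_right ?_ hr0.le
    refine mul_le_mul (by linarith) (hHM _ (by omega)) (by positivity) (by linarith)

theorem sub (h1 : SZ) (h2 : ONE) (h3 : NEAR) (h4 : SEL) (h5 : TRF) : SUB := by
  classical
  intro e he
  obtain ⟨M, D, C₁, k₁, hD, hgeo⟩ := geo h1 h2 h3 h4 e (by omega)
  set n := 2 * e + 1 with hn
  refine ⟨4 * n * M + k₁ + 1, ?_⟩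
  set kk := 4 * n * M + k₁ + 1 with hkk
  intro K _ _ hK
  by_contra hno
  push Not at hno
  choose φ ψ H hdat x t hF hx using fun N : ℕ => hno N
  have hH : ∀ N, (1 : ℝ) ≤ H N := fun N => by exact_mod_cast (hdat N).one
  have hHk : ∀ N m, (1 : ℝ) ≤ (H N : ℝ) ^ m := fun N m => one_le_pow₀ (hH N)
  obtain ⟨L, hLf, hLg, hLI, hL⟩ := Pool.Agent.Y674.HL.exists_gal K
  have : NumberField L := { to_charZero := inferInstance, to_finiteDimensional := hLf }
  set ψL : L →+* ℂ := algebraMap L ℂ with hψL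
  have hfac : ∀ (σ : K →+* ℂ) (a : K), ∃ b : L, ψL b = σ a := fun σ a => ⟨⟨σ a, hL σ a⟩, rfl⟩
  obtain ⟨cj, hcj⟩ := Pool.Agent.Y674.HL.exists_cj ψL
  set i0 : L := ⟨Complex.I, hLI⟩ with hi0def
  have hi0 : ψL i0 = Complex.I := rfl
  have hi0int : IsIntegral ℤ i0 := by
    refine ⟨Polynomial.X ^ 2 + 1, ?_, ?_⟩
    · monicity!
    · have : i0 ^ 2 = -1 := by
        apply ψL.injective
        rw [map_pow, hi0, Complex.I_sq, map_neg, map_one]
      simp [this]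
  set iK : 𝓞 L := ⟨i0, hi0int⟩ with hiK
  have hiKψ : ψL (iK : L) = Complex.I := hi0
  have b : Module.Basis (Fin n) ℤ (𝓞 K) :=
    Module.finBasisOfFinrankEq ℤ (𝓞 K) (by rw [RingOfIntegers.rank K, hK])
  have hind : LinearIndependent ℚ (fun j : Fin n => ((b j : 𝓞 K) : K)) := by
    rw [← LinearIndependent.iff_fractionRing ℤ ℚ]
    have h := b.linearIndependent.map' ((algebraMap (𝓞 K) K).toAddMonoidHom.toIntLinearMap) (by
      rw [LinearMap.ker_eq_bot]
      exact RingOfIntegers.coe_injective)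
    exact h
  obtain ⟨s, hs⟩ := Pool.Agent.Y674.HY.rows ψL hfac _ hind
  set τ : Fin n → (K →+* ℂ) := fun k => ψL.comp (s k) with hτ
  have hτinj : Function.Injective τ := by
    intro i k hik
    apply hs.injective
    funext j
    apply ψL.injective
    exact congrArg (fun f : K →+* ℂ => f (b j : K)) hik
  have hτbij : Function.Bijective τ := (Fintype.bijective_iff_injective_and_card τ).2
    ⟨hτinj, by rw [Fintype.card_fin, NumberField.Embeddings.card K ℂ, hK]⟩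
  have hF' : ∀ N, (F (φ N) (ψ N) (x N)).map (Int.castRingHom ℂ) =
      ∏ i : Fin n, (X - C (τ i (t N : K))) := fun N =>
    (hF N).trans (Function.Bijective.prod_comp hτbij
      (fun σ : K →+* ℂ => (X - C (σ (t N : K))))).symm
  set a : ℕ → ℕ := fun N => N + C₁ + 1 with ha
  have hxa : ∀ N : ℕ, ((N : ℝ) + C₁ + 1) * (H (a N) : ℝ) ^ kk < |(x (a N) : ℝ)| := by
    intro N
    have := hx (a N)
    simpa [ha] using this
  have hx1 : ∀ N, 1 ≤ |(x (a N) : ℝ)| := by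
    intro N
    have h6 := hxa N
    have h7 := hHk (a N) kk
    have h8 : (0 : ℝ) ≤ N := Nat.cast_nonneg N
    have h9 : (0 : ℝ) ≤ C₁ := Nat.cast_nonneg C₁
    nlinarith
  have hxN : ∀ N : ℕ, (N : ℝ) ≤ |(x (a N) : ℝ)| := by
    intro N
    have h6 := hxa N
    have h7 := hHk (a N) kk
    have h8 : (0 : ℝ) ≤ N := Nat.cast_nonneg N
    have h9 : (0 : ℝ) ≤ C₁ := Nat.cast_nonneg C₁
    nlinarith
  have hxC : ∀ N, (C₁ : ℝ) * (H (a N) : ℝ) ^ k₁ ≤ |(x (a N) : ℝ)| := by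
    intro N
    have h6 := hxa N
    have h7 : (H (a N) : ℝ) ^ k₁ ≤ (H (a N) : ℝ) ^ kk := pow_le_pow_right₀ (hH _) (by omega)
    have h8 : (0 : ℝ) ≤ N := Nat.cast_nonneg N
    have h9 : (0 : ℝ) ≤ C₁ := Nat.cast_nonneg C₁
    have h10 := hHk (a N) k₁
    have h11 : (C₁ : ℝ) * (H (a N) : ℝ) ^ k₁ ≤ ((N : ℝ) + C₁ + 1) * (H (a N) : ℝ) ^ kk :=
      mul_le_mul (by linarith) h7 (by positivity) (by positivity)
    linarith
  have huT : Tendsto (fun N => |(x (a N) : ℝ)|) atTop atTop :=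
    tendsto_atTop_mono hxN tendsto_natCast_atTop_atTop
  choose i₀ rep g1 g2 g3 g4 g5 g6 g7 g8 using fun N => hgeo (φ (a N)) (ψ (a N)) (H (a N))
    (hdat _) (x (a N)) (hxC N) (hx1 N) (fun i => τ i (t (a N) : K)) (hF' _)
  obtain ⟨v, hv⟩ : ∃ v : Fin n × (Fin n → Fin n), ∃ᶠ N in atTop, (i₀ N, rep N) = v := by
    by_contra hcon
    push Not at hcon
    have h6 : ∀ᶠ N in atTop, ∀ v, (i₀ N, rep N) ≠ v := by
      rw [eventually_all]
      intro v
      exact hcon v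
    obtain ⟨N, hN⟩ := h6.exists
    exact hN _ rfl
  obtain ⟨I, R⟩ := v
  set η : ℝ := 1 / (4 * n) with hη
  have hn1 : (1 : ℝ) ≤ n := by exact_mod_cast (by omega : 1 ≤ n)
  have hη0 : 0 < η := by rw [hη]; positivity
  have hnη : (n : ℝ) * η = 1 / 4 := by
    rw [hη]
    field_simp
  have hη1 : η ≤ 1 / 4 := by nlinarith
  have hev : ∀ᶠ N : ℕ in atTop, D * (H (a N) : ℝ) ^ M ≤ |(x (a N) : ℝ)| ^ η := by
    filter_upwards [eventually_ge_atTop ⌈D ^ (4 * n)⌉₊] with N hN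
    have h6 : D ^ (4 * n) ≤ N := (Nat.le_ceil _).trans (by exact_mod_cast hN)
    have h7 : (D * (H (a N) : ℝ) ^ M) ^ (4 * n) ≤ |(x (a N) : ℝ)| := by
      rw [mul_pow, ← pow_mul]
      have h8 : (H (a N) : ℝ) ^ (M * (4 * n)) ≤ (H (a N) : ℝ) ^ kk :=
        pow_le_pow_right₀ (hH _) (by rw [hkk]; nlinarith)
      have h9 := hxa N
      have h10 : (0 : ℝ) ≤ C₁ := Nat.cast_nonneg C₁
      have h11 : D ^ (4 * n) * (H (a N) : ℝ) ^ (M * (4 * n)) ≤
          ((N : ℝ) + C₁ + 1) * (H (a N) : ℝ) ^ kk :=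
        mul_le_mul (by linarith) h8 (by positivity) (by positivity)
      linarith
    have hpos : 0 ≤ D * (H (a N) : ℝ) ^ M := by positivity
    have h12 : D * (H (a N) : ℝ) ^ M = ((D * (H (a N) : ℝ) ^ M) ^ (4 * n)) ^ η := by
      have h13 : η = ((4 * n : ℕ) : ℝ)⁻¹ := by
        rw [hη]
        push_cast
        rw [one_div]
      rw [h13, Real.pow_rpow_inv_natCast hpos (by omega)]
    rw [h12]
    exact Real.rpow_le_rpow (by positivity) h7 hη0.le
  obtain ⟨θ, hθ, hθP⟩ := Filter.extraction_of_frequently_atTop (hv.and_eventually hev)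
  have hI : ∀ N, i₀ (θ N) = I := fun N => congrArg Prod.fst (hθP N).1
  have hR : ∀ N, rep (θ N) = R := fun N => congrArg Prod.snd (hθP N).1
  have hRR : ∀ i, R (R i) = R i := by
    intro i
    have := g1 (θ 0) i
    rwa [hR 0] at this
  have hRI : R I = I := by
    have := g2 (θ 0)
    rwa [hR 0, hI 0] at this
  have hRc : e ≤ (Finset.univ.filter fun i => R i ≠ i).card := by
    have := g3 (θ 0)
    rwa [hR 0] at this
  set u : ℕ → ℝ := fun N => |(x (a (θ N)) : ℝ)| with hu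
  set w : ℕ → 𝓞 K := fun N => t (a (θ N)) with hw
  have hu1 : ∀ N, 1 ≤ u N := fun N => hx1 _
  have hu0 : ∀ N, 0 < u N := fun N => by linarith [hu1 N]
  set z : ℕ → Fin n → ℤ := fun N j => b.repr (w N) j with hz
  have hzw : ∀ N, w N = ∑ j, z N j • (b j : 𝓞 K) := fun N => (b.sum_repr (w N)).symm
  have hlarge : ∀ N, u N ≤ 6 * ‖τ I (w N : K)‖ := by
    intro N
    have := g4 (θ N)
    rwa [hI N] at this
  have hne : ∀ N, z N ≠ 0 := by
    intro N h0
    have h6 : w N = 0 := by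
      rw [hzw N, h0]
      simp
    have h7 := hlarge N
    rw [h6] at h7
    have h8 : ((0 : 𝓞 K) : K) = 0 := rfl
    rw [h8, map_zero, norm_zero] at h7
    linarith [hu1 N]
  have huθ : Tendsto u atTop atTop := huT.comp hθ.tendsto_atTop
  set α : Fin n → ℝ := fun k => η + (if k = I then 1 else 0) + (if R k ≠ k then -(1 / 2) else 0)
    with hα
  have hlogA : ∀ N k, Real.log (u N ^ α k) = α k * Real.log (u N) := fun N k =>
    Real.log_rpow (hu0 N) _
  have hαs : ∑ k, α k ≤ -(1 / 4) := by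
    simp only [hα, Finset.sum_add_distrib, Finset.sum_const, Finset.card_univ, Fintype.card_fin,
      Finset.sum_ite_eq', Finset.mem_univ, if_true, nsmul_eq_mul]
    rw [← Finset.sum_filter, Finset.sum_const, nsmul_eq_mul, hnη]
    have h6 : (3 : ℝ) ≤ ((Finset.univ.filter fun i => R i ≠ i).card : ℝ) := by
      exact_mod_cast he.trans hRc
    linarith
  have hul : ∀ N, 0 ≤ Real.log (u N) := fun N => Real.log_nonneg (hu1 N)
  have hevθ : ∀ N, D * (H (a (θ N)) : ℝ) ^ M ≤ u N ^ η := fun N => (hθP N).2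
  have key := Pool.Agent.Y674.HL.sub_gen ψL cj hcj iK hiKψ (m := n) (by omega)
    (Gm R s (fun j => (b j : 𝓞 K))) (Gm_det R hRR s _ hs) z hne
    (fun N => Real.log (u N)) (Real.tendsto_log_atTop.comp huθ)
    (fun N k => u N ^ α k) 2 (1 / 4) (by norm_num) (fun N k => Real.rpow_pos_of_pos (hu0 N) _) (by
      intro N k
      rw [hlogA, abs_mul, abs_of_nonneg (hul N)]
      refine mul_le_mul_of_nonneg_right ?_ (hul N)
      rw [abs_le]
      simp only [hα]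
      constructor <;> split_ifs <;> linarith) (by
      intro N
      simp only [hlogA]
      rw [← Finset.sum_mul]
      nlinarith [hul N]) (by
      intro N k
      rw [Gm_sum R s _ k (z N) (w N) (hzw N)]
      by_cases hk : R k = k
      · simp only [hk, ne_eq, not_true_eq_false, if_false, sub_zero]
        by_cases hkI : k = I
        · subst hkI
          have h6 := g5 (θ N)
          rw [hI N] at h6
          have h7 : u N ^ α k = u N ^ η * u N := by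
            simp only [hα, hk, ne_eq, not_true_eq_false, if_false, if_true, add_zero]
            rw [Real.rpow_add (hu0 N), Real.rpow_one]
          rw [h7]
          refine h6.trans (mul_le_mul_of_nonneg_right (hevθ N) (hu0 N).le)
        · have h6 := g6 (θ N) k (by rw [hI N]; exact hkI)
          have h7 : u N ^ α k = u N ^ η := by
            simp only [hα, hk, hkI, ne_eq, not_true_eq_false, if_false, add_zero]
          rw [h7]
          exact h6.trans ((g7 (θ N)).trans (hevθ N))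
      · simp only [hk, ne_eq, not_false_eq_true, if_true]
        have hkI : k ≠ I := fun h => hk (by rw [h, hRI])
        have h6 := g8 (θ N) k
        rw [hR N] at h6
        have h7 : u N ^ α k = u N ^ η * u N ^ (-(1 / 2) : ℝ) := by
          simp only [hα, hk, hkI, ne_eq, not_false_eq_true, if_false, if_true, add_zero]
          rw [Real.rpow_add (hu0 N)]
        rw [h7]
        rw [map_sub]
        exact h6.trans (mul_le_mul_of_nonneg_right (hevθ N) (Real.rpow_nonneg (hu0 N).le _)))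
  obtain ⟨y, hy, hyf⟩ := key
  obtain ⟨c, hc, hct⟩ := h5 K n b y hy
  have hδ : 0 < ‖τ I c‖ := norm_pos_iff.2 ((map_ne_zero (τ I)).2 hc)
  set S : ℝ := ∑ k, ‖τ k c‖ with hS
  have hS0 : 0 ≤ S := Finset.sum_nonneg fun _ _ => norm_nonneg _
  have hev2 : ∀ᶠ N : ℕ in atTop, 24 * S < N * ‖τ I c‖ :=
    (tendsto_natCast_atTop_atTop.atTop_mul_const hδ).eventually_gt_atTop _
  obtain ⟨N, hN1, hN2⟩ := (hyf.and_eventually hev2).exists
  have htr : ∑ k, τ k c * τ k (w N : K) = 0 := by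
    have h6 := hct (z N)
    rw [hN1, ← hzw N] at h6
    have h7 := Pool.Agent.Y674.HY.tr_sum (c * (w N : K))
    rw [← h6] at h7
    rw [← Function.Bijective.sum_comp hτbij (fun σ : K →+* ℂ => σ (c * (w N : K)))] at h7
    simp only [map_mul] at h7
    rw [← h7]
    simp
  rw [← Finset.add_sum_erase _ _ (Finset.mem_univ I)] at htr
  have h8 : ‖τ I c‖ * ‖τ I (w N : K)‖ ≤ S * (4 * H (a (θ N))) := by
    rw [← norm_mul, eq_neg_of_add_eq_zero_left htr, norm_neg]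
    calc ‖∑ k ∈ univ.erase I, τ k c * τ k (w N : K)‖
        ≤ ∑ k ∈ univ.erase I, ‖τ k c * τ k (w N : K)‖ := norm_sum_le _ _
      _ ≤ ∑ k ∈ univ.erase I, ‖τ k c‖ * (4 * H (a (θ N))) := by
          refine Finset.sum_le_sum fun k hk => ?_
          rw [norm_mul]
          have h9 := g6 (θ N) k (by rw [hI N]; exact Finset.ne_of_mem_erase hk)
          exact mul_le_mul_of_nonneg_left h9 (norm_nonneg _)
      _ = (∑ k ∈ univ.erase I, ‖τ k c‖) * (4 * H (a (θ N))) := by rw [Finset.sum_mul]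
      _ ≤ S * (4 * H (a (θ N))) := by
          refine mul_le_mul_of_nonneg_right ?_ (by positivity)
          exact Finset.sum_le_sum_of_subset_of_nonneg (Finset.erase_subset _ _)
            fun _ _ _ => norm_nonneg _
  have h9 := hlarge N
  have h10 : (N : ℝ) * H (a (θ N)) ≤ u N := by
    have h11 := hxa (θ N)
    have h12 : (N : ℝ) ≤ θ N := by exact_mod_cast hθ.id_le N
    have h13 : (H (a (θ N)) : ℝ) ^ 1 ≤ (H (a (θ N)) : ℝ) ^ kk :=
      pow_le_pow_right₀ (hH _) (by omega)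
    rw [pow_one] at h13
    have h14 : (0 : ℝ) ≤ C₁ := Nat.cast_nonneg C₁
    have h15 : (N : ℝ) * H (a (θ N)) ≤ ((θ N : ℝ) + C₁ + 1) * (H (a (θ N)) : ℝ) ^ kk :=
      mul_le_mul (by linarith) h13 (by positivity) (by positivity)
    exact h15.trans h11.le
  have hHp : (0 : ℝ) < H (a (θ N)) := by linarith [hH (a (θ N))]
  have h16 : (N : ℝ) * H (a (θ N)) * ‖τ I c‖ ≤ 24 * S * H (a (θ N)) := by
    calc (N : ℝ) * H (a (θ N)) * ‖τ I c‖ ≤ u N * ‖τ I c‖ :=
          mul_le_mul_of_nonneg_right h10 hδ.le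
      _ ≤ (6 * ‖τ I (w N : K)‖) * ‖τ I c‖ := mul_le_mul_of_nonneg_right h9 hδ.le
      _ = 6 * (‖τ I c‖ * ‖τ I (w N : K)‖) := by ring
      _ ≤ 6 * (S * (4 * H (a (θ N)))) := by linarith
      _ = 24 * S * H (a (θ N)) := by ring
  have h17 : (N : ℝ) * ‖τ I c‖ ≤ 24 * S := by
    apply le_of_mul_le_mul_right _ hHp
    linarith
  linarith

end Pool.Agent.Y674.TR
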