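import Mathlib
import Pool.Agent.Y674.TR.Sub

/-!
The general theorems.
-/

set_option autoImplicit false

namespace Pool.Agent.Y674.TR

open NumberField Polynomial

theorem natAbs_one_le (x : ℤ) (hx : x ≠ 0) : (1 : ℝ) ≤ |(x : ℝ)| := by
  rw [← Int.cast_abs]
  exact_mod_cast Int.one_le_abs hx

theorem sml (hI : IRR) (hP : PROD) : SML := by
  intro e he
  obtain ⟨k, C₀, h⟩ := hI e he
  refine ⟨k, C₀, ?_⟩
  intro K _ _ hK φ ψ H hd x t ht
  by_contra hcon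
  push Not at hcon
  obtain ⟨K', t', hfin, -⟩ := hP e φ ψ H he hd x (h φ ψ H hd x hcon.le) K t ht
  have h1 : Module.finrank ℚ K' ≤ Module.finrank ℚ K := by
    exact Submodule.finrank_le K'.toSubalgebra.toSubmodule
  omega

theorem gen (hI : IRR) (hP : PROD) (hS : SUB) : GEN := by
  classical
  intro e he
  obtain ⟨k₁, C₁, h⟩ := hI e (by omega)
  obtain ⟨k₂, h2⟩ := hS e he
  refine ⟨k₁ + k₂, ?_⟩
  intro K _ _
  have hfinite : Finite (IntermediateField ℚ K) :=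
    Field.finite_intermediateField_of_exists_primitive_element ℚ K
      (Field.exists_primitive_element ℚ K)
  have hC : ∀ K' : IntermediateField ℚ K, ∃ C₀ : ℕ, Module.finrank ℚ K' = 2 * e + 1 →
      ∀ (φ ψ : ℤ[X]) (H : ℕ), Dat e φ ψ H → ∀ (x : ℤ) (t : 𝓞 K'),
      (F φ ψ x).map (Int.castRingHom ℂ) = ∏ σ : K' →+* ℂ, (X - C (σ (t : K'))) →
      |(x : ℝ)| ≤ C₀ * (H : ℝ) ^ k₂ := by
    intro K'
    by_cases hK' : Module.finrank ℚ K' = 2 * e + 1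
    · obtain ⟨C₀, h3⟩ := h2 K' hK'
      exact ⟨C₀, fun _ => h3⟩
    · exact ⟨0, fun h => absurd h hK'⟩
  choose Cf hCf using hC
  have := Fintype.ofFinite (IntermediateField ℚ K)
  refine ⟨C₁ + ∑ K', Cf K', ?_⟩
  intro φ ψ H hd x t ht
  have hH1 : (1 : ℝ) ≤ H := by exact_mod_cast hd.one
  have hk1 : (H : ℝ) ^ k₁ ≤ (H : ℝ) ^ (k₁ + k₂) := pow_le_pow_right₀ hH1 (by omega)
  have hk2 : (H : ℝ) ^ k₂ ≤ (H : ℝ) ^ (k₁ + k₂) := pow_le_pow_right₀ hH1 (by omega)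
  have hp : (0 : ℝ) ≤ (H : ℝ) ^ (k₁ + k₂) := by positivity
  rcases le_or_gt ((C₁ : ℝ) * (H : ℝ) ^ k₁) |(x : ℝ)| with hx | hx
  · obtain ⟨K', t', hfin, hprod⟩ := hP e φ ψ H (by omega) hd x (h φ ψ H hd x hx) K t ht
    have h3 := hCf K' hfin φ ψ H hd x t' hprod
    have h4 : Cf K' ≤ C₁ + ∑ K', Cf K' :=
      (Finset.single_le_sum (f := Cf) (fun _ _ => Nat.zero_le _) (Finset.mem_univ K')).trans
        (Nat.le_add_left _ _)
    have h5 : (Cf K' : ℝ) ≤ ((C₁ + ∑ K', Cf K' : ℕ) : ℝ) := by exact_mod_cast h4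
    exact h3.trans (mul_le_mul h5 hk2 (by positivity) (Nat.cast_nonneg _))
  · have h5 : (C₁ : ℝ) ≤ ((C₁ + ∑ K', Cf K' : ℕ) : ℝ) := by exact_mod_cast Nat.le_add_right _ _
    exact hx.le.trans (mul_le_mul h5 hk1 (by positivity) (Nat.cast_nonneg _))

end Pool.Agent.Y674.TR
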