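import Mathlib
import Pool.Agent.Y674.TR.Gen
import Pool.Agent.Y739.TR.Sz
import Pool.Agent.Y532.TR.One
import Pool.Agent.Y429.TR.Near
import Pool.Agent.Y248.TR.Irr
import Pool.Agent.Y681.TR.Prod
import Pool.Agent.Y986.TR.Sel
import Pool.Agent.Y988.TR.Trf
import Pool.Agent.Y288.TR.Dat3
import Pool.Agent.Y876.TR.Grp

/-!
Integral points which are divisible by three.
-/

set_option autoImplicit false

namespace Pool.Agent.Y674.TR

open NumberField Polynomial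

theorem t_irr : IRR :=
  Pool.Agent.Y248.TR.irr Pool.Agent.Y739.TR.sz (Pool.Agent.Y532.TR.one Pool.Agent.Y739.TR.sz)

theorem t_sml : SML := sml t_irr Pool.Agent.Y681.TR.prod

theorem t_gen : GEN := gen t_irr Pool.Agent.Y681.TR.prod
  (sub Pool.Agent.Y739.TR.sz (Pool.Agent.Y532.TR.one Pool.Agent.Y739.TR.sz)
    Pool.Agent.Y429.TR.near Pool.Agent.Y986.TR.sel Pool.Agent.Y988.TR.trf)

/-- from the bound for `x` to the bound for both coordinates -/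
theorem both (C₀ k : ℕ) (A B x y : ℤ) (hΔ : 4 * A ^ 3 + 27 * B ^ 2 ≠ 0)
    (hxy : y ^ 2 = x ^ 3 + A * x + B)
    (hx : |(x : ℝ)| ≤ C₀ * ((1000 * (max |A| |B|).natAbs ^ 4 : ℕ) : ℝ) ^ k) :
    |(x : ℝ)| ≤ (3 * (C₀ * 1000 ^ k + 1) ^ 3 : ℝ) * ((max |A| |B| : ℤ) : ℝ) ^ (12 * k + 1) ∧
    |(y : ℝ)| ≤ (3 * (C₀ * 1000 ^ k + 1) ^ 3 : ℝ) * ((max |A| |B| : ℤ) : ℝ) ^ (12 * k + 1) := by
  set h : ℤ := max |A| |B| with hh
  have hh1 : 1 ≤ h := by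
    by_contra hcon
    push Not at hcon
    have hA : |A| ≤ h := le_max_left _ _
    have hB : |B| ≤ h := le_max_right _ _
    have hA0 : A = 0 := by
      rw [← abs_nonpos_iff]
      omega
    have hB0 : B = 0 := by
      rw [← abs_nonpos_iff]
      omega
    exact hΔ (by rw [hA0, hB0]; norm_num)
  set H : ℝ := (h : ℝ) with hH
  have hH1 : 1 ≤ H := by rw [hH]; exact_mod_cast hh1
  have hcast : ((1000 * h.natAbs ^ 4 : ℕ) : ℝ) = 1000 * H ^ 4 := by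
    push_cast
    rw [hH, Nat.cast_natAbs, abs_of_nonneg (by linarith)]
  rw [hcast, mul_pow, ← pow_mul] at hx
  set c : ℝ := C₀ * 1000 ^ k + 1 with hc
  have hc1 : 1 ≤ c := by
    rw [hc]
    have : (0 : ℝ) ≤ C₀ * 1000 ^ k := by positivity
    linarith
  set g : ℝ := H ^ (4 * k) with hg
  have hg1 : 1 ≤ g := one_le_pow₀ hH1
  have hx2 : |(x : ℝ)| ≤ c * g := by
    have h1 : |(x : ℝ)| ≤ (C₀ * 1000 ^ k) * g := by
      rw [mul_assoc]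
      exact hx
    nlinarith
  have hgH : g ^ 3 * H = H ^ (12 * k + 1) := by
    rw [hg, ← pow_mul, pow_succ]
    ring_nf
  have hcg1 : 1 ≤ c * g := one_le_mul_of_one_le_of_one_le hc1 hg1
  have hbig : (c * g) ^ 3 * H = c ^ 3 * H ^ (12 * k + 1) := by
    rw [mul_pow, mul_assoc, hgH]
  have hcg3 : c * g ≤ (c * g) ^ 3 := by
    calc c * g = (c * g) ^ 1 := (pow_one _).symm
      _ ≤ (c * g) ^ 3 := pow_le_pow_right₀ hcg1 (by norm_num)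
  have hpos : 0 < (c * g) ^ 3 := by positivity
  refine ⟨?_, ?_⟩
  · calc |(x : ℝ)| ≤ c * g := hx2
      _ ≤ (c * g) ^ 3 := hcg3
      _ ≤ (c * g) ^ 3 * H := by nlinarith
      _ = c ^ 3 * H ^ (12 * k + 1) := hbig
      _ ≤ 3 * c ^ 3 * H ^ (12 * k + 1) := by
          have : 0 ≤ c ^ 3 * H ^ (12 * k + 1) := by positivity
          nlinarith
  · have hA : |(A : ℝ)| ≤ H := by
      rw [hH, ← Int.cast_abs]
      exact_mod_cast le_max_left |A| |B|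
    have hB : |(B : ℝ)| ≤ H := by
      rw [hH, ← Int.cast_abs]
      exact_mod_cast le_max_right |A| |B|
    have hy0 : |(y : ℝ)| ≤ (y : ℝ) ^ 2 := by
      rw [← Int.cast_abs, ← sq_abs, ← Int.cast_abs]
      have h1 : (0 : ℤ) ≤ |y| := abs_nonneg y
      have h2 : |y| ≤ |y| ^ 2 := by nlinarith
      exact_mod_cast h2
    have hyR : (y : ℝ) ^ 2 = (x : ℝ) ^ 3 + A * x + B := by exact_mod_cast hxy
    have h3 : (y : ℝ) ^ 2 ≤ |(x : ℝ)| ^ 3 + |(A : ℝ)| * |(x : ℝ)| + |(B : ℝ)| := by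
      rw [hyR, ← abs_mul, ← abs_pow]
      exact add_le_add (add_le_add (le_abs_self _) (le_abs_self _)) (le_abs_self _)
    have h4 : |(x : ℝ)| ^ 3 ≤ (c * g) ^ 3 := pow_le_pow_left₀ (abs_nonneg _) hx2 3
    have h5 : |(A : ℝ)| * |(x : ℝ)| ≤ H * (c * g) ^ 3 :=
      mul_le_mul hA (hx2.trans hcg3) (abs_nonneg _) (by linarith)
    have h6 : (1 : ℝ) ≤ (c * g) ^ 3 := hcg1.trans hcg3
    calc |(y : ℝ)| ≤ (y : ℝ) ^ 2 := hy0
      _ ≤ (c * g) ^ 3 + H * (c * g) ^ 3 + H := by linarith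
      _ ≤ 3 * ((c * g) ^ 3 * H) := by nlinarith
      _ = 3 * c ^ 3 * H ^ (12 * k + 1) := by rw [hbig]; ring

/-- a fixed number field -/
theorem thirds_fixed : ∃ M : ℕ, ∀ (K : Type) [Field K] [NumberField K] [DecidableEq K],
    ∃ C : ℝ, ∀ A B x y : ℤ, 4 * A ^ 3 + 27 * B ^ 2 ≠ 0 → y ^ 2 = x ^ 3 + A * x + B →
      (∃ (h : (E K A B).Nonsingular (x : K) (y : K)) (Q : (E K A B).Point),
        3 • Q = WeierstrassCurve.Affine.Point.some (x : K) (y : K) h) →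
      |(x : ℝ)| ≤ C * ((max |A| |B| : ℤ) : ℝ) ^ M ∧
      |(y : ℝ)| ≤ C * ((max |A| |B| : ℤ) : ℝ) ^ M := by
  obtain ⟨k, hk⟩ := t_gen 4 (by norm_num)
  refine ⟨12 * k + 1, ?_⟩
  intro K _ _ _
  obtain ⟨C₀, hC⟩ := hk K
  refine ⟨3 * (C₀ * 1000 ^ k + 1) ^ 3, ?_⟩
  intro A B x y hΔ hxy hQ
  obtain ⟨h, Q, hQ⟩ := hQ
  obtain ⟨t, ht⟩ := Pool.Agent.Y876.TR.grp K A B x y h Q hQ
  exact both C₀ k A B x y hΔ hxy
    (hC _ _ _ (Pool.Agent.Y288.TR.dat3 A B hΔ) x t ht)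

/-- number fields of degree less than nine -/
theorem thirds_small : ∃ (M : ℕ) (C : ℝ), ∀ (K : Type) [Field K] [NumberField K] [DecidableEq K],
    Module.finrank ℚ K < 9 →
    ∀ A B x y : ℤ, 4 * A ^ 3 + 27 * B ^ 2 ≠ 0 → y ^ 2 = x ^ 3 + A * x + B →
      (∃ (h : (E K A B).Nonsingular (x : K) (y : K)) (Q : (E K A B).Point),
        3 • Q = WeierstrassCurve.Affine.Point.some (x : K) (y : K) h) →
      |(x : ℝ)| ≤ C * ((max |A| |B| : ℤ) : ℝ) ^ M ∧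
      |(y : ℝ)| ≤ C * ((max |A| |B| : ℤ) : ℝ) ^ M := by
  obtain ⟨k, C₀, hk⟩ := t_sml 4 (by norm_num)
  refine ⟨12 * k + 1, 3 * (C₀ * 1000 ^ k + 1) ^ 3, ?_⟩
  intro K _ _ _ hK A B x y hΔ hxy hQ
  obtain ⟨h, Q, hQ⟩ := hQ
  obtain ⟨t, ht⟩ := Pool.Agent.Y876.TR.grp K A B x y h Q hQ
  exact both C₀ k A B x y hΔ hxy
    (hk K (by omega) _ _ _ (Pool.Agent.Y288.TR.dat3 A B hΔ) x t ht)

end Pool.Agent.Y674.TR
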