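import Mathlib
import Pool.Agent.Y674.TR.Fin
import Pool.Agent.Y674.TR.Stm2
import Pool.Agent.Y674.HL.Sharp3

/-!
Integral points which are divisible by `m`.
-/

set_option autoImplicit false

namespace Pool.Agent.Y674.TR

open NumberField Polynomial

theorem h_pos (A B : ℤ) (hΔ : 4 * A ^ 3 + 27 * B ^ 2 ≠ 0) : 1 ≤ max |A| |B| := by
  by_contra hcon
  push Not at hcon
  have hA : |A| ≤ max |A| |B| := le_max_left _ _
  have hB : |B| ≤ max |A| |B| := le_max_right _ _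
  have hA0 : A = 0 := by
    rw [← abs_nonpos_iff]
    omega
  have hB0 : B = 0 := by
    rw [← abs_nonpos_iff]
    omega
  exact hΔ (by rw [hA0, hB0]; norm_num)

/-- from the bound for `x` to the bound for both coordinates -/
theorem both2 (c₀ : ℝ) (hc₀ : 0 ≤ c₀) (n : ℕ) (A B x y : ℤ) (hΔ : 4 * A ^ 3 + 27 * B ^ 2 ≠ 0)
    (hxy : y ^ 2 = x ^ 3 + A * x + B)
    (hx : |(x : ℝ)| ≤ c₀ * ((max |A| |B| : ℤ) : ℝ) ^ n) :
    |(x : ℝ)| ≤ (3 * (c₀ + 1) ^ 3 : ℝ) * ((max |A| |B| : ℤ) : ℝ) ^ (3 * n + 1) ∧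
    |(y : ℝ)| ≤ (3 * (c₀ + 1) ^ 3 : ℝ) * ((max |A| |B| : ℤ) : ℝ) ^ (3 * n + 1) := by
  have hh1 := h_pos A B hΔ
  set h : ℤ := max |A| |B| with hh
  set H : ℝ := (h : ℝ) with hH
  have hH1 : 1 ≤ H := by rw [hH]; exact_mod_cast hh1
  set c : ℝ := c₀ + 1 with hc
  have hc1 : 1 ≤ c := by linarith
  set g : ℝ := H ^ n with hg
  have hg1 : 1 ≤ g := one_le_pow₀ hH1
  have hx2 : |(x : ℝ)| ≤ c * g := by nlinarith
  have hgH : g ^ 3 * H = H ^ (3 * n + 1) := by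
    rw [hg, ← pow_mul, pow_succ]
    ring_nf
  have hcg1 : 1 ≤ c * g := one_le_mul_of_one_le_of_one_le hc1 hg1
  have hbig : (c * g) ^ 3 * H = c ^ 3 * H ^ (3 * n + 1) := by
    rw [mul_pow, mul_assoc, hgH]
  have hcg3 : c * g ≤ (c * g) ^ 3 := by
    calc c * g = (c * g) ^ 1 := (pow_one _).symm
      _ ≤ (c * g) ^ 3 := pow_le_pow_right₀ hcg1 (by norm_num)
  have hpos : 0 < (c * g) ^ 3 := by positivity
  refine ⟨?_, ?_⟩
  · calc |(x : ℝ)| ≤ c * g := hx2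
      _ ≤ (c * g) ^ 3 := hcg3
      _ ≤ (c * g) ^ 3 * H := by nlinarith
      _ = c ^ 3 * H ^ (3 * n + 1) := hbig
      _ ≤ 3 * c ^ 3 * H ^ (3 * n + 1) := by
          have : 0 ≤ c ^ 3 * H ^ (3 * n + 1) := by positivity
          nlinarith
  · have hA : |(A : ℝ)| ≤ H := by
      rw [hH, ← Int.cast_abs]
      exact_mod_cast le_max_left |A| |B|
    have hB : |(B : ℝ)| ≤ H := by
      rw [hH, ← Int.cast_abs]
      exact_mod_cast le_max_right |A| |B|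
    have hy0 : |(y : ℝ)| ≤ (y : ℝ) ^ 2 := by
      rw [← Int.cast_abs, ← sq_abs, ← Int.cast_abs]
      have h1 : (0 : ℤ) ≤ |y| := abs_nonneg y
      have h2 : |y| ≤ |y| ^ 2 := by nlinarith
      exact_mod_cast h2
    have hyR : (y : ℝ) ^ 2 = (x : ℝ) ^ 3 + A * x + B := by exact_mod_cast hxy
    have h3 : (y : ℝ) ^ 2 ≤ |(x : ℝ)| ^ 3 + |(A : ℝ)| * |(x : ℝ)| + |(B : ℝ)| := by
      rw [hyR, ← abs_mul, ← abs_pow]
      exact add_le_add (add_le_add (le_abs_self _) (le_abs_self _)) (le_abs_self _)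
    have h4 : |(x : ℝ)| ^ 3 ≤ (c * g) ^ 3 := pow_le_pow_left₀ (abs_nonneg _) hx2 3
    have h5 : |(A : ℝ)| * |(x : ℝ)| ≤ H * (c * g) ^ 3 :=
      mul_le_mul hA (hx2.trans hcg3) (abs_nonneg _) (by linarith)
    have h6 : (1 : ℝ) ≤ (c * g) ^ 3 := hcg1.trans hcg3
    calc |(y : ℝ)| ≤ (y : ℝ) ^ 2 := hy0
      _ ≤ (c * g) ^ 3 + H * (c * g) ^ 3 + H := by linarith
      _ ≤ 3 * ((c * g) ^ 3 * H) := by nlinarith
      _ = 3 * c ^ 3 * H ^ (3 * n + 1) := by rw [hbig]; ring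

/-- the `x`-coordinate of an `m`-th part -/
theorem root_of (h1 : MULP) (K : Type) [Field K] [CharZero K] [DecidableEq K] (A B : ℤ)
    (hΔ : 4 * A ^ 3 + 27 * B ^ 2 ≠ 0) (m : ℕ) (hm : 1 ≤ m) (x y : K)
    (h : (E K A B).Nonsingular x y) (Q : (E K A B).Point)
    (hQ : m • Q = WeierstrassCurve.Affine.Point.some x y h) :
    ∃ t : K, aeval t (ND A B m).1 = x * aeval t (ND A B m).2 := by
  rcases Q with _ | ⟨t, s, hts⟩
  · exfalso
    have h0 : (WeierstrassCurve.Affine.Point.zero : (E K A B).Point) = 0 := rfl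
    rw [h0, smul_zero] at hQ
    exact WeierstrassCurve.Affine.Point.some_ne_zero h hQ.symm
  · refine ⟨t, ?_⟩
    rcases h1 K A B hΔ t s hts m hm with ⟨h2, -, -⟩ | ⟨-, x', y', h', h2, h3⟩
    · rw [hQ] at h2
      exact absurd h2 (WeierstrassCurve.Affine.Point.some_ne_zero h)
    · rw [hQ] at h2
      injection h2 with hx hy
      rw [h3, hx]

/-- the data for odd multiples -/
theorem dat_odd (h2 : DEG) (h3 : PB) (h4 : COP) (h5 : SEP) (k : ℕ) (hk : 1 ≤ k) :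
    ∃ c j : ℕ, ∀ A B : ℤ, 4 * A ^ 3 + 27 * B ^ 2 ≠ 0 →
      Dat (2 * k ^ 2 + 2 * k) (ND A B (2 * k + 1)).1 (Wp A B k)
        (c * (max |A| |B|).natAbs ^ j) := by
  obtain ⟨c₁, j₁, hc₁, hb₁⟩ := h3 (2 * k + 1)
  obtain ⟨c₂, j₂, hc₂, hb₂⟩ := h3 k
  refine ⟨c₁ * c₂, j₁ + j₂, ?_⟩
  intro A B hΔ
  have hh1 := h_pos A B hΔ
  have hcast : ((c₁ * c₂ * (max |A| |B|).natAbs ^ (j₁ + j₂) : ℕ) : ℤ) =
      (c₁ : ℤ) * c₂ * (max |A| |B|) ^ (j₁ + j₂) := by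
    push_cast
    rw [abs_of_nonneg (by linarith)]
  have hp₁ : (max |A| |B|) ^ j₁ ≤ (max |A| |B|) ^ (j₁ + j₂) :=
    pow_le_pow_right₀ hh1 (by omega)
  have hp₂ : (max |A| |B|) ^ j₂ ≤ (max |A| |B|) ^ (j₁ + j₂) :=
    pow_le_pow_right₀ hh1 (by omega)
  have hp0 : 0 < (max |A| |B|) ^ (j₁ + j₂) := by positivity
  have hc1' : (1 : ℤ) ≤ c₁ := by exact_mod_cast hc₁
  have hc2' : (1 : ℤ) ≤ c₂ := by exact_mod_cast hc₂
  have hle₁ : (c₁ : ℤ) * (max |A| |B|) ^ j₁ ≤ (c₁ : ℤ) * c₂ * (max |A| |B|) ^ (j₁ + j₂) :=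
    mul_le_mul (by nlinarith) hp₁ (by positivity) (by positivity)
  have hle₂ : (c₂ : ℤ) * (max |A| |B|) ^ j₂ ≤ (c₁ : ℤ) * c₂ * (max |A| |B|) ^ (j₁ + j₂) :=
    mul_le_mul (by nlinarith) hp₂ (by positivity) (by positivity)
  refine ⟨?_, (h2 A B (2 * k + 1) (by omega)).1.1, ?_, (h2 A B k hk).2, ?_, ?_, h5 A B hΔ k hk, ?_⟩
  · have : 0 < c₁ * c₂ * (max |A| |B|).natAbs ^ (j₁ + j₂) := by
      have h6 : 0 < (max |A| |B|).natAbs := Int.natAbs_pos.2 (by omega)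
      positivity
    omega
  · rw [(h2 A B (2 * k + 1) (by omega)).1.2.1]
    ring
  · intro i
    rw [hcast]
    exact (hb₁ A B hh1 i).1.trans hle₁
  · intro i
    rw [hcast]
    exact (hb₂ A B hh1 i).2.2.trans hle₂
  · have h6 := h4 A B hΔ (2 * k + 1) (by omega)
    rw [ND_odd_snd A B k hk, Polynomial.map_pow] at h6
    exact (IsCoprime.pow_right_iff (by norm_num)).1 h6

/-- the data for all multiples -/
theorem dat_all (h2 : DEG) (h3 : PB) (h4 : COP) (m : ℕ) (hm : 2 ≤ m) :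
    ∃ c j : ℕ, ∀ A B : ℤ, 4 * A ^ 3 + 27 * B ^ 2 ≠ 0 →
      DatD (m ^ 2) (ND A B m).1 (ND A B m).2 (c * (max |A| |B|).natAbs ^ j) := by
  obtain ⟨c₁, j₁, hc₁, hb₁⟩ := h3 m
  refine ⟨c₁, j₁, ?_⟩
  intro A B hΔ
  have hh1 := h_pos A B hΔ
  have hcast : ((c₁ * (max |A| |B|).natAbs ^ j₁ : ℕ) : ℤ) =
      (c₁ : ℤ) * (max |A| |B|) ^ j₁ := by
    push_cast
    rw [abs_of_nonneg (by linarith)]
  have hd := (h2 A B m (by omega)).1
  refine ⟨?_, hd.1, hd.2.1, hd.2.2.1, ?_, ?_, ?_, h4 A B hΔ m (by omega)⟩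
  · have : 0 < c₁ * (max |A| |B|).natAbs ^ j₁ := by
      have h6 : 0 < (max |A| |B|).natAbs := Int.natAbs_pos.2 (by omega)
      positivity
    omega
  · intro h0
    have h7 := hd.2.2.2
    rw [h0, leadingCoeff_zero] at h7
    have h8 : (0 : ℤ) < (m : ℤ) ^ 2 := by positivity
    omega
  · intro i
    rw [hcast]
    exact (hb₁ A B hh1 i).1
  · intro i
    rw [hcast]
    exact (hb₁ A B hh1 i).2.1

/-- a fixed number field, every `m` -/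
theorem parts_fixed (h1 : MULP) (h2 : DEG) (h3 : PB) (h4 : COP) (h5 : SEP) (h6 : HLF) :
    ∀ m : ℕ, 2 ≤ m → ∃ M : ℕ, ∀ (K : Type) [Field K] [NumberField K] [DecidableEq K],
    ∃ C : ℝ, ∀ A B x y : ℤ, 4 * A ^ 3 + 27 * B ^ 2 ≠ 0 → y ^ 2 = x ^ 3 + A * x + B →
      (∃ (h : (E K A B).Nonsingular (x : K) (y : K)) (Q : (E K A B).Point),
        m • Q = WeierstrassCurve.Affine.Point.some (x : K) (y : K) h) →
      |(x : ℝ)| ≤ C * ((max |A| |B| : ℤ) : ℝ) ^ M ∧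
      |(y : ℝ)| ≤ C * ((max |A| |B| : ℤ) : ℝ) ^ M := by
  intro m hm
  rcases Nat.even_or_odd' m with ⟨k, hk | hk⟩
  · -- even
    refine ⟨3, ?_⟩
    intro K _ _ _
    obtain ⟨C, hC⟩ := Pool.Agent.Y674.HL.part1 K
    refine ⟨max C 0, ?_⟩
    intro A B x y hΔ hxy hQ
    obtain ⟨h, Q, hQ⟩ := hQ
    have hQ2 : 2 • (k • Q) = WeierstrassCurve.Affine.Point.some (x : K) (y : K) h := by
      rw [← hQ, hk, mul_smul]
    obtain ⟨hx, hy⟩ := hC A B x y hΔ hxy (h6 K A B x y h (k • Q) hQ2)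
    have hh1 : (1 : ℝ) ≤ ((max |A| |B| : ℤ) : ℝ) := by exact_mod_cast h_pos A B hΔ
    have hH2 : ((max |A| |B| : ℤ) : ℝ) ^ 2 ≤ ((max |A| |B| : ℤ) : ℝ) ^ 3 :=
      pow_le_pow_right₀ hh1 (by norm_num)
    have hp2 : (0 : ℝ) ≤ ((max |A| |B| : ℤ) : ℝ) ^ 2 := by positivity
    have hp3 : (0 : ℝ) ≤ ((max |A| |B| : ℤ) : ℝ) ^ 3 := by positivity
    refine ⟨hx.trans ?_, hy.trans ?_⟩
    · calc C * ((max |A| |B| : ℤ) : ℝ) ^ 2 ≤ max C 0 * ((max |A| |B| : ℤ) : ℝ) ^ 2 :=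
            mul_le_mul_of_nonneg_right (le_max_left _ _) hp2
        _ ≤ max C 0 * ((max |A| |B| : ℤ) : ℝ) ^ 3 :=
            mul_le_mul_of_nonneg_left hH2 (le_max_right _ _)
    · exact mul_le_mul_of_nonneg_right (le_max_left _ _) hp3
  · -- odd
    have hk1 : 1 ≤ k := by omega
    obtain ⟨c, j, hdat⟩ := dat_odd h2 h3 h4 h5 k hk1
    obtain ⟨n, hn⟩ := t_gen (2 * k ^ 2 + 2 * k) (by nlinarith)
    refine ⟨3 * (j * n) + 1, ?_⟩
    intro K _ _ _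
    obtain ⟨C₀, hC⟩ := hn K
    refine ⟨3 * (C₀ * (c : ℝ) ^ n + 1) ^ 3, ?_⟩
    intro A B x y hΔ hxy hQ
    obtain ⟨h, Q, hQ⟩ := hQ
    obtain ⟨t, ht⟩ := root_of h1 K A B hΔ m (by omega) x y h Q hQ
    rw [hk, ND_odd_snd A B k hk1, map_pow] at ht
    have hx := hC _ _ _ (hdat A B hΔ) x t ht
    refine both2 (C₀ * (c : ℝ) ^ n) (by positivity) (j * n) A B x y hΔ hxy (hx.trans (le_of_eq ?_))
    have hh1 := h_pos A B hΔ
    push_cast
    rw [Nat.cast_natAbs, abs_of_nonneg (by linarith : (0 : ℤ) ≤ max |A| |B|), mul_pow, ← pow_mul]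
    push_cast
    ring

/-- number fields of small degree, every `m` -/
theorem parts_small (h1 : MULP) (h2 : DEG) (h3 : PB) (h4 : COP) (h5 : IRRD) :
    ∀ m : ℕ, 2 ≤ m → ∃ (M : ℕ) (C : ℝ), ∀ (K : Type) [Field K] [NumberField K] [DecidableEq K],
    Module.finrank ℚ K < m ^ 2 →
    ∀ A B x y : ℤ, 4 * A ^ 3 + 27 * B ^ 2 ≠ 0 → y ^ 2 = x ^ 3 + A * x + B →
      (∃ (h : (E K A B).Nonsingular (x : K) (y : K)) (Q : (E K A B).Point),
        m • Q = WeierstrassCurve.Affine.Point.some (x : K) (y : K) h) →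
      |(x : ℝ)| ≤ C * ((max |A| |B| : ℤ) : ℝ) ^ M ∧
      |(y : ℝ)| ≤ C * ((max |A| |B| : ℤ) : ℝ) ^ M := by
  intro m hm
  obtain ⟨c, j, hdat⟩ := dat_all h2 h3 h4 m hm
  obtain ⟨n, C₀, hn⟩ := h5 (m ^ 2) (by nlinarith)
  refine ⟨3 * (j * n) + 1, 3 * (C₀ * (c : ℝ) ^ n + 1) ^ 3, ?_⟩
  intro K _ _ _ hK A B x y hΔ hxy hQ
  obtain ⟨h, Q, hQ⟩ := hQ
  obtain ⟨t, ht⟩ := root_of h1 K A B hΔ m (by omega) x y h Q hQ
  have hd := hdat A B hΔ
  have hx : |(x : ℝ)| ≤ C₀ * ((c * (max |A| |B|).natAbs ^ j : ℕ) : ℝ) ^ n := by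
    by_contra hcon
    push Not at hcon
    have hirr := hn _ _ _ hd x hcon.le
    set G : ℚ[X] := ((ND A B m).1 - C x * (ND A B m).2).map (Int.castRingHom ℚ) with hG
    have hroot : aeval t G = 0 := by
      rw [hG, show (Int.castRingHom ℚ) = algebraMap ℤ ℚ from rfl, aeval_map_algebraMap, map_sub,
        map_mul, aeval_C, ht]
      simp
    have hint : ((ND A B m).1 - C x * (ND A B m).2).Monic := by
      apply hd.mon.sub_of_left
      refine degree_lt_degree (lt_of_le_of_lt (natDegree_C_mul_le x _) ?_)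
      rw [hd.deg, hd.degδ]
      exact Nat.sub_lt (by positivity) one_pos
    have hGm : G.Monic := hint.map _
    have hmin : G = minpoly ℚ t := minpoly.eq_of_irreducible_of_monic hirr hroot hGm
    have hdeg : G.natDegree = m ^ 2 := by
      rw [hG, hint.natDegree_map, natDegree_sub_eq_left_of_natDegree_lt, hd.deg]
      refine lt_of_le_of_lt (natDegree_C_mul_le x _) ?_
      rw [hd.deg, hd.degδ]
      exact Nat.sub_lt (by positivity) one_pos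
    have hle : (minpoly ℚ t).natDegree ≤ Module.finrank ℚ K := minpoly.natDegree_le t
    rw [← hmin, hdeg] at hle
    omega
  refine both2 (C₀ * (c : ℝ) ^ n) (by positivity) (j * n) A B x y hΔ hxy (hx.trans (le_of_eq ?_))
  have hh1 := h_pos A B hΔ
  push_cast
  rw [Nat.cast_natAbs, abs_of_nonneg (by linarith : (0 : ℤ) ≤ max |A| |B|), mul_pow, ← pow_mul]
  push_cast
  ring

end Pool.Agent.Y674.TR
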