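import Mathlib
import Pool.Agent.Y674.TR.Asm
import Pool.Agent.Y891.TR.Dbl
import Pool.Agent.Y401.TR.Add
import Pool.Agent.Y170.TR.Mulp
import Pool.Agent.Y431.TR.Deg
import Pool.Agent.Y465.TR.PB
import Pool.Agent.Y409.TR.Cop
import Pool.Agent.Y903.TR.Sep
import Pool.Agent.Y809.TR.IrrD
import Pool.Agent.Y448.TR.Hlf

/-!
Integral points which are divisible by `m`: the theorems.
-/

set_option autoImplicit false

namespace Pool.Agent.Y674.TR

theorem t_mulp : MULP := Pool.Agent.Y170.TR.mulp Pool.Agent.Y891.TR.dbl Pool.Agent.Y401.TR.add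

theorem t_deg : DEG := Pool.Agent.Y431.TR.deg

theorem t_pb : PB := Pool.Agent.Y465.TR.pb

theorem t_cop : COP := Pool.Agent.Y409.TR.cop t_mulp

theorem t_sep : SEP := Pool.Agent.Y903.TR.sep t_mulp t_deg t_cop

/-- a fixed number field, every `m` -/
theorem all_fixed : ∀ m : ℕ, 2 ≤ m → ∃ M : ℕ,
    ∀ (K : Type) [Field K] [NumberField K] [DecidableEq K],
    ∃ C : ℝ, ∀ A B x y : ℤ, 4 * A ^ 3 + 27 * B ^ 2 ≠ 0 → y ^ 2 = x ^ 3 + A * x + B →
      (∃ (h : (E K A B).Nonsingular (x : K) (y : K)) (Q : (E K A B).Point),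
        m • Q = WeierstrassCurve.Affine.Point.some (x : K) (y : K) h) →
      |(x : ℝ)| ≤ C * ((max |A| |B| : ℤ) : ℝ) ^ M ∧
      |(y : ℝ)| ≤ C * ((max |A| |B| : ℤ) : ℝ) ^ M :=
  parts_fixed t_mulp t_deg t_pb t_cop t_sep Pool.Agent.Y448.TR.hlf

/-- number fields of degree less than `m ^ 2`, every `m` -/
theorem all_small : ∀ m : ℕ, 2 ≤ m → ∃ (M : ℕ) (C : ℝ),
    ∀ (K : Type) [Field K] [NumberField K] [DecidableEq K], Module.finrank ℚ K < m ^ 2 →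
    ∀ A B x y : ℤ, 4 * A ^ 3 + 27 * B ^ 2 ≠ 0 → y ^ 2 = x ^ 3 + A * x + B →
      (∃ (h : (E K A B).Nonsingular (x : K) (y : K)) (Q : (E K A B).Point),
        m • Q = WeierstrassCurve.Affine.Point.some (x : K) (y : K) h) →
      |(x : ℝ)| ≤ C * ((max |A| |B| : ℤ) : ℝ) ^ M ∧
      |(y : ℝ)| ≤ C * ((max |A| |B| : ℤ) : ℝ) ^ M :=
  parts_small t_mulp t_deg t_pb t_cop Pool.Agent.Y809.TR.irrd

end Pool.Agent.Y674.TR
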