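import Mathlib
import Pool.Agent.Y674.TR.Stm2

/-!
Project TR, part 3: Mordell curves, better exponents.
-/

set_option autoImplicit false

namespace Pool.Agent.Y674.TR

open Polynomial NumberField

/-- homogeneity of the multiplication polynomials of `y ^ 2 = x ^ 3 + k` -/
def SCALE : Prop := ∀ (σ k : ℤ) (κ : ℂ), (k : ℂ) = (σ : ℂ) * κ ^ 3 → ∀ n : ℕ, 1 ≤ n → ∀ z : ℂ,
  ev (ND 0 k n).1 (κ * z) = κ ^ (n ^ 2) * ev (ND 0 σ n).1 z ∧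
  ev (ND 0 k n).2 (κ * z) = κ ^ (n ^ 2 - 1) * ev (ND 0 σ n).2 z ∧
  ev (Wp 0 k n) (κ * z) = κ ^ (2 * n ^ 2 + 2 * n) * ev (Wp 0 σ n) z

/-- the roots of `φ - ξ ψ ^ 2` for fixed polynomials and a large real parameter -/
def GEOR : Prop := ∀ (e : ℕ), 1 ≤ e → ∀ (φ ψ : ℂ[X]), φ.Monic → φ.natDegree = 2 * e + 1 →
  ψ.natDegree = e → ψ.Separable → IsCoprime φ ψ → ∃ C₀ : ℝ, 1 ≤ C₀ ∧ ∀ ξ : ℝ, C₀ ≤ |ξ| →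
  ∀ s : Fin (2 * e + 1) → ℂ, φ - C (ξ : ℂ) * ψ ^ 2 = ∏ i, (X - C (s i)) →
  ∃ i₀, |ξ| ≤ C₀ * ‖s i₀‖ ∧ ‖s i₀‖ ≤ C₀ * |ξ| ∧ ∀ i, i ≠ i₀ → ‖s i‖ ≤ C₀ ∧
    ∃ τ ∈ ψ.roots.toFinset, ‖s i - τ‖ ≤ C₀ * |ξ| ^ (-(1 / 2) : ℝ)

/-- the field of degree `m ^ 2`, `m = 2 j + 1` -/
def SUBH : Prop := ∀ j : ℕ, 1 ≤ j → ∀ θ : ℝ,
  5 * (2 * (j : ℝ) ^ 2 + 2 * j) / (3 * (2 * (j : ℝ) ^ 2 + 2 * j - 2)) < θ →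
  ∀ (K : Type) [Field K] [NumberField K],
  Module.finrank ℚ K = 2 * (2 * j ^ 2 + 2 * j) + 1 → ∃ C₀ : ℝ, ∀ k x : ℤ, k ≠ 0 → ∀ t : 𝓞 K,
  (F (ND 0 k (2 * j + 1)).1 (Wp 0 k j) x).map (Int.castRingHom ℂ) =
    ∏ σ : K →+* ℂ, (X - C (σ (t : K))) →
  |(x : ℝ)| ≤ C₀ * |(k : ℝ)| ^ θ

/-- the generating root -/
def PRDH : Prop := ∀ (e : ℕ) (φ ψ : ℤ[X]) (H : ℕ), 1 ≤ e → Dat e φ ψ H → ∀ x : ℤ,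
  ∀ (K : Type) [Field K] [NumberField K] (t : K), aeval t φ = (x : K) * aeval t ψ ^ 2 →
  2 * e + 1 ≤ Module.finrank ℚ (IntermediateField.adjoin ℚ {t}) →
  Irreducible ((F φ ψ x).map (Int.castRingHom ℚ))

end Pool.Agent.Y674.TR
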